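import Mathlib
import Pool.Agent.H.MP_3e5c62_pr.Prob

namespace Pool.Agent.Results.MP_5f8894_co.Three

open SimpleGraph Filter Topology Classical Finset

/-- `H` is a 3-ASC graph: connected, radius 3, exactly two non-central vertices -/
def ASC3 {W : Type} (H : SimpleGraph W) : Prop :=
  H.Connected ∧ H.radius = 3 ∧ {v | H.eccent v ≠ H.radius}.ncard = 2

/-- the 3-ASC index of `G` equals `m` -/
def Index {n : ℕ} (G : SimpleGraph (Fin n)) (m : ℕ) : Prop :=
  IsLeast {k : ℕ | ∃ (W : Type) (_ : Fintype W) (H : SimpleGraph W),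
    Fintype.card W = n + k ∧ ASC3 H ∧ Nonempty (G ↪g H)} m

def Ext {V : Type} (G : SimpleGraph V) : Prop :=
  ∀ U S : Finset V, #U ≤ 4 → #S ≤ 4 → ∃ v, v ∉ U ∧ ∀ u ∈ U, (G.Adj u v ↔ u ∈ S)

theorem lip {W : Type} (H : SimpleGraph W) (p : W → ℕ) (h : ∀ a b, H.Adj a b → p b ≤ p a + 1)
    (a b : W) (k : ℕ) (hk : p a + k ≤ p b) : (k : ℕ∞) ≤ H.edist a b := by
  have key : ∀ {a b : W} (w : H.Walk a b), p b ≤ p a + w.length := by
    intro a b w
    induction w with
    | nil => simp
    | cons hab w ih => have := h _ _ hab; simp only [Walk.length_cons]; omega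
  rw [edist_eq_sInf]
  refine le_sInf ?_
  rintro _ ⟨w, rfl⟩
  have := key w
  exact Nat.cast_le.2 (by omega : k ≤ w.length)

theorem e1 {W : Type} {H : SimpleGraph W} {a b : W} (h : H.Adj a b) : H.edist a b ≤ 1 :=
  (edist_eq_one_iff_adj.2 h).le

theorem tr {W : Type} {H : SimpleGraph W} {a b c : W} {i j : ℕ∞} (h1 : H.edist a b ≤ i)
    (h2 : H.edist b c ≤ j) : H.edist a c ≤ i + j :=
  (H.edist_triangle (v := b)).trans (add_le_add h1 h2)

theorem common {V : Type} {G : SimpleGraph V} (hG : Ext G) (a b : V) :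
    ∃ g, G.Adj a g ∧ G.Adj b g := by
  obtain ⟨v, _, hv⟩ := hG {a, b} {a, b} (card_le_two.trans (by norm_num))
    (card_le_two.trans (by norm_num))
  exact ⟨v, (hv a (by simp)).2 (by simp), (hv b (by simp)).2 (by simp)⟩

theorem lower {V W : Type} [Fintype V] [Fintype W] (G : SimpleGraph V) (hG : Ext G)
    (H : SimpleGraph W) (k : ℕ) (hc : Fintype.card W = Fintype.card V + k) (hH : ASC3 H)
    (f : G ↪g H) : 3 ≤ k := by
  by_contra hk
  obtain ⟨hcon, hrad, -⟩ := hH
  obtain ⟨v0, -⟩ := hG ∅ ∅ (by simp) (by simp)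
  have two : ∀ a b, H.edist (f a) (f b) ≤ 2 := by
    intro a b
    obtain ⟨g, h1, h2⟩ := common hG a b
    exact tr (e1 (f.map_rel_iff.2 h1)) (e1 (f.map_rel_iff.2 h2).symm)
  have no : ∀ g, (∀ w, w ∉ Set.range f → H.edist (f g) w ≤ 2) → False := by
    intro g h
    have h1 : H.eccent (f g) ≤ 2 := by
      rw [eccent_le_iff]
      intro w
      by_cases hw : w ∈ Set.range f
      · obtain ⟨a, rfl⟩ := hw
        exact two g a
      · exact h w hw
    have h2 := hrad ▸ (H.radius_le_eccent (u := f g))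
    exact absurd (h2.trans h1) (by decide)
  have few : ∀ x y z, x ∉ Set.range f → y ∉ Set.range f → z ∉ Set.range f →
      x = y ∨ x = z ∨ y = z := by
    intro x y z hx hy hz
    by_contra hne
    push Not at hne
    have h3 : #({x, y, z} : Finset W) = 3 := card_eq_three.2 ⟨x, y, z, hne.1, hne.2.1, hne.2.2, rfl⟩
    have hd : Disjoint ({x, y, z} : Finset W) (univ.image f) := by
      rw [Finset.disjoint_left]
      intro w hw hw2
      obtain ⟨a, _, rfl⟩ := mem_image.1 hw2
      simp only [mem_insert, mem_singleton] at hw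
      rcases hw with h | h | h
      exacts [hx ⟨a, h⟩, hy ⟨a, h⟩, hz ⟨a, h⟩]
    have := card_le_univ (({x, y, z} : Finset W) ∪ univ.image f)
    rw [card_union_of_disjoint hd, h3, card_image_of_injective _ f.injective, card_univ] at this
    omega
  by_cases hy : ∃ y b, y ∉ Set.range f ∧ H.Adj (f b) y
  · obtain ⟨y, b, hy, hb⟩ := hy
    by_cases hx : ∃ x a, x ≠ y ∧ x ∉ Set.range f ∧ H.Adj (f a) x
    · obtain ⟨x, a, hxy, hx, ha⟩ := hx
      obtain ⟨g, h1, h2⟩ := common hG a b
      refine no g fun w hw => ?_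
      rcases few x y w hx hy hw with h | rfl | rfl
      · exact absurd h hxy
      · exact tr (e1 (f.map_rel_iff.2 h1).symm) (e1 ha)
      · exact tr (e1 (f.map_rel_iff.2 h2).symm) (e1 hb)
    · refine no b fun w hw => ?_
      by_cases hwy : w = y
      · subst hwy
        exact (e1 hb).trans (by decide)
      · obtain ⟨p⟩ := hcon w y
        cases p with
        | nil => exact absurd rfl hwy
        | cons h p =>
          rename_i u
          by_cases hu : u ∈ Set.range f
          · obtain ⟨a, rfl⟩ := hu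
            exact absurd ⟨w, a, hwy, hw, h.symm⟩ hx
          · rcases few w y u hw hy hu with h1 | h1 | rfl
            · exact absurd h1 hwy
            · exact absurd h1 h.ne
            · exact tr (e1 hb) (e1 h.symm)
  · refine no v0 fun w hw => ?_
    exfalso
    obtain ⟨p⟩ := hcon (f v0) w
    have key : ∀ {s t : W} (p : H.Walk s t), s ∈ Set.range f → t ∈ Set.range f := by
      intro s t p
      induction p with
      | nil => exact id
      | cons h p ih =>
        rintro ⟨a, rfl⟩
        apply ih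
        by_contra hn
        exact hy ⟨_, a, hn, h⟩
    exact hw (key p ⟨v0, rfl⟩)

section
variable {V : Type} (G : SimpleGraph V) (c g : V)

def InB (b : V) : Prop := b ≠ c ∧ b ≠ g ∧ ¬ G.Adj c b ∧ ¬ G.Adj g b

def R : V ⊕ Fin 3 → V ⊕ Fin 3 → Prop
  | .inl a, .inl b => G.Adj a b
  | .inl a, .inr i => (i = 1 ∧ InB G c g a) ∨ (i = 2 ∧ a = c)
  | .inr i, .inl a => (i = 1 ∧ InB G c g a) ∨ (i = 2 ∧ a = c)
  | .inr i, .inr j => i ≠ j ∧ (i = 0 ∨ j = 0)

def HH : SimpleGraph (V ⊕ Fin 3) where
  Adj := R G c g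
  symm := ⟨by
    rintro (a | a) (b | b) h
    · exact G.symm.1 _ _ h
    · exact h
    · exact h
    · exact ⟨h.1.symm, h.2.symm⟩⟩
  loopless := ⟨by
    rintro (a | a) h
    · exact G.loopless.1 _ h
    · exact h.1 rfl⟩

noncomputable def px : V ⊕ Fin 3 → ℕ
  | .inl a => if InB G c g a ∨ a = c then 2 else if a = g then 4 else 3
  | .inr i => if i = 0 then 0 else 1

noncomputable def pz : V ⊕ Fin 3 → ℕ
  | .inl a => if a = c then 1 else if G.Adj c a then 2 else 3
  | .inr i => if i = 2 then 0 else if i = 0 then 1 else 2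

noncomputable def py : V ⊕ Fin 3 → ℕ
  | .inl a => if InB G c g a then 1 else if a = c then 3 else 2
  | .inr i => if i = 1 then 0 else if i = 0 then 1 else 2

theorem lx (hn : ¬ G.Adj c g) : ∀ a b, (HH G c g).Adj a b → px G c g b ≤ px G c g a + 1 := by
  rintro (a | a) (b | b) h
  · have h' : G.Adj a b := h
    simp only [px]
    by_cases h3 : b = g
    · subst h3
      have h4 : ¬ (InB G c b a ∨ a = c) := by
        rintro (h4 | rfl)
        · exact absurd h'.symm h4.2.2.2
        · exact absurd h' hn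
      split_ifs <;> omega
    · split_ifs <;> omega
  · simp only [px]; split_ifs <;> omega
  · rcases h with ⟨rfl, h⟩ | ⟨rfl, h⟩ <;> simp [px, h]
  · simp only [px]; split_ifs <;> omega

theorem lz : ∀ a b, (HH G c g).Adj a b → pz G c b ≤ pz G c a + 1 := by
  rintro (a | a) (b | b) h
  · have h' : G.Adj a b := h
    simp only [pz]
    split_ifs with h1 h2 h3 h4 h5 h6 <;> first | omega | simp_all
  · simp only [pz]; split_ifs <;> omega
  · rcases h with ⟨rfl, h⟩ | ⟨rfl, h⟩
    · simp only [pz]; split_ifs <;> simp_all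
    · simp [pz, h]
  · obtain ⟨h1, h2⟩ := h
    simp only [pz]; split_ifs <;> first | omega | simp_all

theorem ly : ∀ a b, (HH G c g).Adj a b → py G c g b ≤ py G c g a + 1 := by
  rintro (a | a) (b | b) h
  · have h' : G.Adj a b := h
    simp only [py]
    split_ifs with h1 h2 h3 h4 h5 h6 <;> try omega
    subst h4
    exact absurd h'.symm (by assumption : InB G b g a).2.2.1
  · simp only [py]; split_ifs <;> omega
  · rcases h with ⟨rfl, h⟩ | ⟨rfl, h⟩
    · simp [py, h]
    · simp only [py]; split_ifs <;> simp_all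
  · obtain ⟨h1, h2⟩ := h
    simp only [py]; split_ifs <;> first | omega | simp_all

theorem asc (hG : Ext G) (hne : c ≠ g) (hn : ¬ G.Adj c g) : ASC3 (HH G c g) := by
  have two : ∀ a b, (HH G c g).edist (.inl a) (.inl b) ≤ 2 := by
    intro a b
    obtain ⟨w, h1, h2⟩ := common hG a b
    exact tr (e1 (H := HH G c g) (a := Sum.inl a) (b := Sum.inl w) h1)
      (e1 (H := HH G c g) (a := Sum.inl w) (b := Sum.inl b) h2.symm)
  have dom : ∀ a, a ≠ c → a ≠ g → ∃ b, InB G c g b ∧ G.Adj a b := by
    intro a h1 h2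
    obtain ⟨v, hv, h⟩ := hG {a, c, g} {a} (card_le_three.trans (by norm_num)) (by simp)
    simp only [mem_insert, mem_singleton, not_or] at hv
    refine ⟨v, ⟨hv.2.1, hv.2.2, ?_, ?_⟩, (h a (by simp)).2 (by simp)⟩
    · rw [h c (by simp)]; simpa using h1.symm
    · rw [h g (by simp)]; simpa using h2.symm
  obtain ⟨b0, hb0⟩ : ∃ b, InB G c g b := by
    obtain ⟨v, hv, h⟩ := hG {c, g} ∅ (card_le_two.trans (by norm_num)) (by simp)
    simp only [mem_insert, mem_singleton, not_or] at hv
    exact ⟨v, hv.1, hv.2, by rw [h c (by simp)]; simp, by rw [h g (by simp)]; simp⟩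
  have xy : (HH G c g).edist (.inr 0) (.inr 1) ≤ 1 := e1 ⟨by decide, Or.inl rfl⟩
  have xz : (HH G c g).edist (.inr 0) (.inr 2) ≤ 1 := e1 ⟨by decide, Or.inl rfl⟩
  have yb : ∀ b, InB G c g b → (HH G c g).edist (.inr 1) (.inl b) ≤ 1 :=
    fun b hb => e1 (Or.inl ⟨rfl, hb⟩)
  have zc : (HH G c g).edist (.inr 2) (.inl c) ≤ 1 := e1 (Or.inr ⟨rfl, rfl⟩)
  have y3 : ∀ a, (HH G c g).edist (.inr 1) (.inl a) ≤ 3 := fun a => tr (yb b0 hb0) (two b0 a)
  have z3 : ∀ a, (HH G c g).edist (.inr 2) (.inl a) ≤ 3 := fun a => tr zc (two c a)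
  have x4 : ∀ a, (HH G c g).edist (.inr 0) (.inl a) ≤ 4 := fun a => tr xy (y3 a)
  have x3 : ∀ a, a ≠ g → (HH G c g).edist (.inr 0) (.inl a) ≤ 3 := by
    intro a ha
    by_cases hc : a = c
    · subst hc
      exact (tr xz zc).trans (by decide)
    · obtain ⟨b, hb, hab⟩ := dom a hc ha
      exact tr xy (tr (yb b hb) (e1 (H := HH G c g) (a := Sum.inl b) (b := Sum.inl a) hab.symm))
  have rr : ∀ i j, (HH G c g).edist (.inr i) (.inr j) ≤ 2 := by
    have : ∀ i, (HH G c g).edist (.inr 0) (.inr i) ≤ 1 := by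
      intro i
      fin_cases i
      · simp
      · exact xy
      · exact xz
    exact fun i j => tr (edist_comm.le.trans (this i)) (this j)
  have xg : (4 : ℕ∞) ≤ (HH G c g).edist (.inr 0) (.inl g) :=
    lip _ _ (lx G c g hn) _ _ 4 (by simp [px, InB, hne.symm])
  have yc : (3 : ℕ∞) ≤ (HH G c g).edist (.inr 1) (.inl c) :=
    lip _ _ (ly G c g) _ _ 3 (by simp [py, InB])
  have zb : ∀ b, InB G c g b → (3 : ℕ∞) ≤ (HH G c g).edist (.inr 2) (.inl b) :=
    fun b hb => lip _ _ (lz G c g) _ _ 3 (by simp [pz, hb.1, hb.2.2.1])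
  have xo : ∀ a, ¬ InB G c g a → a ≠ c → (3 : ℕ∞) ≤ (HH G c g).edist (.inr 0) (.inl a) :=
    fun a h1 h2 => lip _ _ (lx G c g hn) _ _ 3 (by simp only [px, h1, h2]; split_ifs <;> simp_all)
  have E3 : ∀ v, v ≠ .inr 0 → v ≠ .inl g → (HH G c g).eccent v = 3 := by
    rintro (a | i) h1 h2
    · have ha : a ≠ g := fun h => h2 (by rw [h])
      apply le_antisymm
      · rw [eccent_le_iff]
        rintro (b | j)
        · exact (two a b).trans (by decide)
        · rw [edist_comm]
          fin_cases j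
          exacts [x3 a ha, y3 a, z3 a]
      · by_cases hb : InB G c g a
        · exact (zb a hb).trans (edist_comm.le.trans edist_le_eccent)
        · by_cases hc : a = c
          · subst hc
            exact yc.trans (edist_comm.le.trans edist_le_eccent)
          · exact (xo a hb hc).trans (edist_comm.le.trans edist_le_eccent)
    · fin_cases i
      · exact absurd rfl h1
      · apply le_antisymm
        · rw [eccent_le_iff]
          rintro (b | j)
          exacts [y3 b, (rr _ _).trans (by decide)]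
        · exact yc.trans edist_le_eccent
      · apply le_antisymm
        · rw [eccent_le_iff]
          rintro (b | j)
          exacts [z3 b, (rr _ _).trans (by decide)]
        · exact (zb b0 hb0).trans edist_le_eccent
  have Ex : (4 : ℕ∞) ≤ (HH G c g).eccent (.inr 0) := xg.trans edist_le_eccent
  have Eg : (4 : ℕ∞) ≤ (HH G c g).eccent (.inl g) :=
    xg.trans (edist_comm.le.trans edist_le_eccent)
  have rad : (HH G c g).radius = 3 := by
    apply le_antisymm
    · exact radius_le_eccent.trans (E3 (.inr 1) (by simp) (by simp)).le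
    · refine le_iInf fun v => ?_
      by_cases h1 : v = .inr 0
      · subst h1; exact le_trans (by decide) Ex
      · by_cases h2 : v = .inl g
        · subst h2; exact le_trans (by decide) Eg
        · exact (E3 v h1 h2).ge
  refine ⟨?_, rad, ?_⟩
  · by_contra h
    rw [radius_eq_top_of_not_connected h] at rad
    exact absurd rad (by decide)
  · rw [Set.ncard_eq_two]
    refine ⟨.inr 0, .inl g, by simp, ?_⟩
    ext v
    simp only [rad, Set.mem_ofPred_eq, Set.mem_insert_iff, Set.mem_singleton_iff]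
    constructor
    · intro h
      by_contra hc
      push Not at hc
      exact h (E3 v hc.1 hc.2)
    · rintro (rfl | rfl) h
      · rw [h] at Ex; exact absurd Ex (by decide)
      · rw [h] at Eg; exact absurd Eg (by decide)

end

theorem index_three {n : ℕ} (G : SimpleGraph (Fin n)) (hG : Ext G) : Index G 3 := by
  constructor
  · obtain ⟨c, -⟩ := hG ∅ ∅ (by simp) (by simp)
    obtain ⟨g, hg, h⟩ := hG {c} ∅ (by simp) (by simp)
    refine ⟨Fin n ⊕ Fin 3, inferInstance, HH G c g, by simp,
      asc G c g hG (fun e => hg (by simp [e])) (by rw [h c (by simp)]; simp),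
      ⟨⟨⟨Sum.inl, Sum.inl_injective⟩, Iff.rfl⟩⟩⟩
  · rintro k ⟨W, _, H, hc, hH, ⟨f⟩⟩
    exact lower G hG H k (by simpa using hc) hH f

open Pool.Agent.H.MP_3e5c62_pr in
theorem ext_of_good (n : ℕ) (hn : 100 ≤ n) (G : SimpleGraph (Fin n)) (h : Good (1 / 32) G) :
    Ext G := by
  intro U S hU hS
  have h1 := (abs_le.1 (h U S hU hS)).1
  have h2 : (1 / 2 : ℝ) ^ 4 ≤ (1 / 2) ^ #U := pow_le_pow_of_le_one (by norm_num) (by norm_num) hU
  have h3 : (n : ℝ) - 4 ≤ #Uᶜ := by
    rw [card_compl, Nat.cast_sub (card_le_univ U), Fintype.card_fin]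
    have : (#U : ℝ) ≤ 4 := by exact_mod_cast hU
    linarith
  have h4 : (100 : ℝ) ≤ n := by exact_mod_cast hn
  rw [Fintype.card_fin] at h1
  have h5 : (0 : ℝ) < ex G U S := by nlinarith
  obtain ⟨v, hv⟩ := card_pos.1 (show 0 < ex G U S by exact_mod_cast h5)
  obtain ⟨a, b⟩ := mem_filter.1 hv
  exact ⟨v, mem_compl.1 a, b⟩

open Pool.Agent.H.MP_3e5c62_pr in
theorem result :
    Tendsto (fun n : ℕ => (Nat.card {G : SimpleGraph (Fin n) // Index G 3} : ℝ) /
      (2 : ℝ) ^ (n.choose 2)) atTop (𝓝 1) ∧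
    Tendsto (fun n : ℕ => (Nat.card {G : SimpleGraph (Fin n) // Index G 4} : ℝ) /
      (2 : ℝ) ^ (n.choose 2)) atTop (𝓝 0) := by
  refine ⟨almost (δ := 1 / 32) (by norm_num) (by norm_num) (fun n G => Index G 3) 100
    fun n hn G h => index_three G (ext_of_good n hn G h), ?_⟩
  have h := almost (δ := 1 / 32) (by norm_num) (by norm_num) (fun n G => ¬ Index G 4) 100
    fun n hn G h h4 => absurd ((index_three G (ext_of_good n hn G h)).unique h4) (by decide)
  have h2 := (tendsto_const_nhds (x := (1 : ℝ))).sub h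
  rw [sub_self] at h2
  refine h2.congr fun n => ?_
  have hc : (Fintype.card (SimpleGraph (Fin n)) : ℝ) = 2 ^ n.choose 2 := by
    rw [card_graphs]; simp
  rw [Nat.card_eq_fintype_card, Nat.card_eq_fintype_card, Fintype.card_subtype_compl,
    Nat.cast_sub (Fintype.card_subtype_le _), hc]
  field_simp
  ring

end Pool.Agent.Results.MP_5f8894_co.Three
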